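import Mathlib

/-!
A hypo-unique-domination graph with a cut-vertex: 19 vertices, two copies of a graph on ten
vertices sharing one vertex.
-/

namespace Pool.Agent.Results.MP_4402ee_co.CutVertex

/-- `D` is a dominating set of `G`: every vertex outside `D` has a neighbour in `D`. -/
def Dominating {V : Type*} (G : SimpleGraph V) (D : Finset V) : Prop :=
  ∀ v, v ∉ D → ∃ u ∈ D, G.Adj v u

/-- The domination number of `G`: the minimum size of a dominating set. -/
noncomputable def domNumber {V : Type*} (G : SimpleGraph V) : ℕ :=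
  sInf {k | ∃ D : Finset V, Dominating G D ∧ D.card = k}

/-- A dominating set of minimum size. -/
def IsGammaSet {V : Type*} (G : SimpleGraph V) (D : Finset V) : Prop :=
  Dominating G D ∧ D.card = domNumber G

/-- Hypo-unique-domination: `G` has at least two minimum dominating sets, and each
vertex-deleted subgraph has exactly one. -/
def HypoUD {V : Type*} (G : SimpleGraph V) : Prop :=
  (∃ D D' : Finset V, D ≠ D' ∧ IsGammaSet G D ∧ IsGammaSet G D') ∧
    ∀ v : V, ∃! D : Finset {w : V | w ≠ v}, IsGammaSet (G.induce {w : V | w ≠ v}) D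

/-- `v` is a cut-vertex of `G`: `G - v` has more connected components than `G`. -/
def IsCutVertex {V : Type*} (G : SimpleGraph V) (v : V) : Prop :=
  Nat.card G.ConnectedComponent < Nat.card (G.induce {w : V | w ≠ v}).ConnectedComponent

/-! ### General facts -/

section general

variable {V : Type*}

lemma domNumber_eq (G : SimpleGraph V) (D : Finset V) (hD : Dominating G D)
    (hmin : ∀ D' : Finset V, Dominating G D' → D.card ≤ D'.card) : domNumber G = D.card := by
  apply le_antisymm
  · exact Nat.sInf_le ⟨D, hD, rfl⟩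
  · obtain ⟨D', h1, h2⟩ := Nat.sInf_mem
      (show {k | ∃ D : Finset V, Dominating G D ∧ D.card = k}.Nonempty from ⟨_, D, hD, rfl⟩)
    unfold domNumber
    rw [← h2]
    exact hmin D' h1

/-- `E` is a set of vertices avoiding `v` and dominating all the vertices except `v`. -/
def Dom1 (G : SimpleGraph V) (v : V) (E : Finset V) : Prop :=
  v ∉ E ∧ ∀ w, w ≠ v → w ∉ E → ∃ u ∈ E, G.Adj w u

lemma dom1_of (G : SimpleGraph V) (v : V) (D : Finset {w : V | w ≠ v})
    (hD : Dominating (G.induce {w : V | w ≠ v}) D) :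
    Dom1 G v (D.map (Function.Embedding.subtype _)) := by
  refine ⟨?_, ?_⟩
  · intro h
    obtain ⟨a, _, h2⟩ := Finset.mem_map.mp h
    exact a.2 h2
  · intro w hw hwD
    obtain ⟨u, hu, hadj⟩ := hD ⟨w, hw⟩ (fun h => hwD (Finset.mem_map.mpr ⟨_, h, rfl⟩))
    exact ⟨u, Finset.mem_map.mpr ⟨u, hu, rfl⟩, hadj⟩

lemma unique_of [DecidableEq V] (G : SimpleGraph V) (v : V) (E : Finset V) (h1 : Dom1 G v E)
    (h2 : ∀ E', Dom1 G v E' → E'.card ≤ E.card → E' = E) :
    ∃! D : Finset {w : V | w ≠ v}, IsGammaSet (G.induce {w : V | w ≠ v}) D := by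
  set D : Finset {w : V | w ≠ v} := E.subtype (fun w => w ≠ v) with hDdef
  have hmap : D.map (Function.Embedding.subtype _) = E := by
    rw [hDdef]
    exact Finset.subtype_map_of_mem (fun w hw h => h1.1 (h ▸ hw))
  have hcard : D.card = E.card := by
    rw [← hmap, Finset.card_map]
  have hD : Dominating (G.induce {w : V | w ≠ v}) D := by
    intro w hw
    have hw' : (w : V) ∉ E := fun h => hw (Finset.mem_subtype.mpr h)
    obtain ⟨u, hu, hadj⟩ := h1.2 w w.2 hw'
    exact ⟨⟨u, fun h => h1.1 (h ▸ hu)⟩, Finset.mem_subtype.mpr hu, hadj⟩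
  have hmin : ∀ D' : Finset {w : V | w ≠ v}, Dominating (G.induce {w : V | w ≠ v}) D' →
      D'.card ≤ D.card → D' = D := by
    intro D' hD' hc
    have h3 := dom1_of G v D' hD'
    have h4 := h2 _ h3 (by rw [Finset.card_map]; omega)
    rw [← hmap] at h4
    exact Finset.map_injective _ h4
  have hnum : domNumber (G.induce {w : V | w ≠ v}) = D.card := by
    apply domNumber_eq _ _ hD
    intro D' hD'
    by_contra hlt
    have := hmin D' hD' (by omega)
    rw [this] at hlt
    exact hlt le_rfl
  refine ⟨D, ⟨hD, hnum.symm⟩, ?_⟩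
  intro D' hD'
  exact hmin D' hD'.1 (by rw [hD'.2, hnum])

end general

/-! ### A search for small dominating sets -/

section checker

variable {n : ℕ}

/-- Branching search for the sets avoiding `v` that dominate all the other vertices: the answer
`true` means that each such set containing `ch` with at most `k` further elements is `Dl`. -/
def chk (ord : List (Fin n)) (nbs : Fin n → List (Fin n)) (cn : Fin n → ℕ) (v : Fin n)
    (Dl : List (Fin n)) : ℕ → List (Fin n) → ℕ → Bool
  | 0, ch, cov =>
    match ord.find? (fun w => w != v && !cov.testBit w) with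
    | none => Dl.all (fun u => ch.contains u) && ch.all (fun u => Dl.contains u)
    | some _ => true
  | k + 1, ch, cov =>
    match ord.find? (fun w => w != v && !cov.testBit w) with
    | none => false
    | some w => (nbs w).all fun u => u == v || chk ord nbs cn v Dl k (u :: ch) (cov ||| cn u)

lemma chk_sound (G : SimpleGraph (Fin n)) (ord : List (Fin n)) (nbs : Fin n → List (Fin n))
    (cn : Fin n → ℕ) (v : Fin n) (Dl : List (Fin n))
    (hnbs : ∀ w u, (u = w ∨ G.Adj w u) → u ∈ nbs w)
    (hcn : ∀ u w : Fin n, (cn u).testBit w = true ↔ (u = w ∨ G.Adj w u))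
    (D : Finset (Fin n)) (hD : Dom1 G v D) :
    ∀ (k : ℕ) (ch : List (Fin n)) (cov : ℕ), (∀ u ∈ ch, u ∈ D) → ch.Nodup →
      D.card ≤ ch.length + k →
      (∀ w : Fin n, cov.testBit w = true ↔ ∃ u ∈ ch, u = w ∨ G.Adj w u) →
      chk ord nbs cn v Dl k ch cov = true → D = Dl.toFinset := by
  have hdom : ∀ w, w ≠ v → ∃ u ∈ D, u = w ∨ G.Adj w u := by
    intro w hw
    by_cases h : w ∈ D
    · exact ⟨w, h, Or.inl rfl⟩
    · obtain ⟨u, hu, ha⟩ := hD.2 w hw h
      exact ⟨u, hu, Or.inr ha⟩
  have heq : ∀ ch : List (Fin n), (∀ u ∈ ch, u ∈ D) → ch.Nodup → D.card ≤ ch.length →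
      D = ch.toFinset := by
    intro ch h1 h2 h3
    symm
    apply Finset.eq_of_subset_of_card_le
    · intro u hu
      exact h1 u (List.mem_toFinset.mp hu)
    · rw [List.toFinset_card_of_nodup h2]; exact h3
  intro k
  induction k with
  | zero =>
    intro ch cov h1 h2 h3 h4 h5
    have hDch := heq ch h1 h2 (by simpa using h3)
    unfold chk at h5
    split at h5
    · rename_i hfind
      rw [Bool.and_eq_true, List.all_eq_true, List.all_eq_true] at h5
      rw [hDch]
      ext u
      rw [List.mem_toFinset, List.mem_toFinset]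
      constructor
      · intro hu
        have := h5.2 u hu
        simpa using this
      · intro hu
        have := h5.1 u hu
        simpa using this
    · rename_i w hfind
      exfalso
      have hw := List.find?_some hfind
      simp only [Bool.and_eq_true, bne_iff_ne, ne_eq, Bool.not_eq_true'] at hw
      obtain ⟨u, hu, hu'⟩ := hdom w hw.1
      rw [hDch, List.mem_toFinset] at hu
      have := (h4 w).mpr ⟨u, hu, hu'⟩
      rw [this] at hw
      exact Bool.noConfusion hw.2
  | succ k ih =>
    intro ch cov h1 h2 h3 h4 h5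
    unfold chk at h5
    split at h5
    · exact absurd h5 (by simp)
    · rename_i w hfind
      have hw := List.find?_some hfind
      simp only [Bool.and_eq_true, bne_iff_ne, ne_eq, Bool.not_eq_true'] at hw
      obtain ⟨u, hu, hu'⟩ := hdom w hw.1
      rw [List.all_eq_true] at h5
      have h6 := h5 u (hnbs w u hu')
      have huv : u ≠ v := fun h => hD.1 (h ▸ hu)
      have huch : u ∉ ch := by
        intro h
        have := (h4 w).mpr ⟨u, h, hu'⟩
        rw [this] at hw
        exact Bool.noConfusion hw.2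
      rw [Bool.or_eq_true] at h6
      rcases h6 with h6 | h6
      · exact absurd (by simpa using h6) huv
      · refine ih (u :: ch) (cov ||| cn u) ?_ ?_ ?_ ?_ h6
        · intro x hx
          rcases List.mem_cons.mp hx with rfl | hx
          · exact hu
          · exact h1 x hx
        · exact List.nodup_cons.mpr ⟨huch, h2⟩
        · rw [List.length_cons]; omega
        · intro z
          rw [Nat.testBit_or, Bool.or_eq_true, h4 z, hcn u z]
          constructor
          · rintro (⟨y, hy, hy'⟩ | h)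
            · exact ⟨y, List.mem_cons_of_mem _ hy, hy'⟩
            · exact ⟨u, List.mem_cons_self, h⟩
          · rintro ⟨y, hy, hy'⟩
            rcases List.mem_cons.mp hy with rfl | hy
            · exact Or.inr hy'
            · exact Or.inl ⟨y, hy, hy'⟩

end checker

/-! ### The graph -/

/-- The closed neighbourhoods as bit masks. -/
def masks : List ℕ := [77977, 142, 286, 591, 821, 240, 744, 483, 404, 600, 72704, 146432, 302081, 419841, 122880, 380928, 246785, 206848, 307200]

/-- The closed neighbourhoods as lists. -/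
def nblist : List (List (Fin 19)) := [[0, 3, 4, 7, 12, 13, 16], [1, 2, 3, 7], [1, 2, 3, 4, 8], [0, 1, 2, 3, 6, 9], [0, 2, 4, 5, 8, 9], [4, 5, 6, 7], [3, 5, 6, 7, 9], [0, 1, 5, 6, 7, 8], [2, 4, 7, 8], [3, 4, 6, 9], [10, 11, 12, 16], [10, 11, 12, 13, 17], [0, 10, 11, 12, 15, 18], [0, 11, 13, 14, 17, 18], [13, 14, 15, 16], [12, 14, 15, 16, 18], [0, 10, 14, 15, 16, 17], [11, 13, 16, 17], [12, 13, 15, 18]]

/-- The minimum dominating sets of the vertex-deleted subgraphs. -/
def doms : List (List (Fin 19)) := [[2, 6, 11, 15], [4, 6, 11, 15], [7, 9, 11, 15], [4, 7, 11, 15], [3, 7, 11, 15], [3, 8, 11, 15], [1, 4, 11, 15], [3, 4, 11, 15], [3, 5, 11, 15], [2, 7, 11, 15], [2, 6, 13, 15], [2, 6, 16, 18], [2, 6, 13, 16], [2, 6, 12, 16], [2, 6, 12, 17], [2, 6, 10, 13], [2, 6, 12, 13], [2, 6, 12, 14], [2, 6, 11, 16]]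

/-- The closed neighbourhood of `u` as a bit mask. -/
def cn (u : Fin 19) : ℕ := masks.getD u 0

/-- The closed neighbourhood of `u` as a list. -/
def nbs (u : Fin 19) : List (Fin 19) := nblist.getD u []

/-- The minimum dominating set of the graph without `u`. -/
def dl (u : Fin 19) : List (Fin 19) := doms.getD u []

/-- An order of the vertices. -/
def ord : List (Fin 19) := [1, 5, 8, 9, 10, 14, 17, 18, 2, 6, 11, 15, 3, 4, 7, 12, 13, 16, 0]

/-- The graph. -/
def W : SimpleGraph (Fin 19) where
  Adj i j := i ≠ j ∧ (cn i).testBit j = true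
  symm := ⟨by decide⟩
  loopless := ⟨fun _ h => h.1 rfl⟩

instance : DecidableRel W.Adj := fun i j =>
  inferInstanceAs (Decidable (i ≠ j ∧ (cn i).testBit j = true))

lemma cn_iff : ∀ u w : Fin 19, (cn u).testBit w = true ↔ (u = w ∨ W.Adj w u) := by decide

lemma nbs_mem : ∀ w u : Fin 19, (u = w ∨ W.Adj w u) → u ∈ nbs w := by decide

lemma dl_dom : ∀ v : Fin 19, v ∉ dl v ∧
    ∀ w, w ≠ v → w ∉ dl v → ∃ u ∈ dl v, W.Adj w u := by decide

lemma dl_not : ∀ v : Fin 19, ¬ ∃ u ∈ dl v, W.Adj v u := by decide

lemma dl_nodup : ∀ v : Fin 19, (dl v).Nodup ∧ (dl v).length = 4 := by decide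

lemma search : ∀ v : Fin 19, chk ord nbs cn v (dl v) 4 [] 0 = true := by
  decide

lemma dl_unique (v : Fin 19) (E : Finset (Fin 19)) (hE : Dom1 W v E) (hc : E.card ≤ 4) :
    E = (dl v).toFinset :=
  chk_sound W ord nbs cn v (dl v) nbs_mem cn_iff E hE 4 [] 0
    (by simp) (by simp) (by simpa using hc) (by simp) (search v)

lemma dom_card (D : Finset (Fin 19)) (hD : Dominating W D) : 5 ≤ D.card := by
  by_contra hlt
  have hne : ∃ v, v ∉ D := by
    by_contra hcon
    push Not at hcon
    have : D = Finset.univ := Finset.eq_univ_of_forall hcon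
    rw [this] at hlt
    exact hlt (by decide)
  obtain ⟨v, hv⟩ := hne
  have h := dl_unique v D ⟨hv, fun w _ hwD => hD w hwD⟩ (by omega)
  obtain ⟨u, hu, ha⟩ := hD v hv
  rw [h, List.mem_toFinset] at hu
  exact dl_not v ⟨u, hu, ha⟩

lemma domA : ∀ v : Fin 19, v ∉ ({0, 2, 6, 11, 15} : Finset (Fin 19)) →
    ∃ u ∈ ({0, 2, 6, 11, 15} : Finset (Fin 19)), W.Adj v u := by decide

lemma domB : ∀ v : Fin 19, v ∉ ({1, 4, 6, 11, 15} : Finset (Fin 19)) →
    ∃ u ∈ ({1, 4, 6, 11, 15} : Finset (Fin 19)), W.Adj v u := by decide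

lemma domNumber_W : domNumber W = 5 :=
  (domNumber_eq W {0, 2, 6, 11, 15} domA (fun D' h => by
    have := dom_card D' h
    exact le_trans (by decide) this)).trans (by decide)

lemma hypo : HypoUD W := by
  refine ⟨⟨{0, 2, 6, 11, 15}, {1, 4, 6, 11, 15}, by decide, ⟨domA, ?_⟩, ⟨domB, ?_⟩⟩, ?_⟩
  · rw [domNumber_W]; decide
  · rw [domNumber_W]; decide
  · intro v
    have hcard : (dl v).toFinset.card = 4 := by
      rw [List.toFinset_card_of_nodup (dl_nodup v).1, (dl_nodup v).2]
    refine unique_of W v (dl v).toFinset ⟨?_, ?_⟩ ?_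
    · rw [List.mem_toFinset]; exact (dl_dom v).1
    · intro w hw hwD
      rw [List.mem_toFinset] at hwD
      obtain ⟨u, hu, ha⟩ := (dl_dom v).2 w hw hwD
      exact ⟨u, List.mem_toFinset.mpr hu, ha⟩
    · intro E hE hc
      rw [hcard] at hc
      exact dl_unique v E hE hc

lemma near0 : ∀ w : Fin 19, w = 0 ∨ W.Adj 0 w ∨ ∃ u, W.Adj 0 u ∧ W.Adj u w := by decide

lemma conn : W.Connected := by
  have h0 : ∀ w, W.Reachable 0 w := by
    intro w
    rcases near0 w with rfl | h | ⟨u, h1, h2⟩
    · exact SimpleGraph.Reachable.refl _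
    · exact h.reachable
    · exact h1.reachable.trans h2.reachable
  have : Nonempty (Fin 19) := ⟨0⟩
  exact ⟨fun u v => (h0 u).symm.trans (h0 v)⟩

lemma side : ∀ u w : Fin 19, u ≠ 0 → w ≠ 0 → W.Adj u w → ((u : ℕ) ≤ 9 ↔ (w : ℕ) ≤ 9) := by
  decide

lemma cut : IsCutVertex W 0 := by
  unfold IsCutVertex
  have h1 : Nat.card W.ConnectedComponent = 1 := by
    have := conn.preconnected.subsingleton_connectedComponent
    have : Nonempty W.ConnectedComponent := ⟨W.connectedComponentMk 0⟩
    exact Nat.card_of_subsingleton (W.connectedComponentMk 0)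
  rw [h1, Finite.one_lt_card_iff_nontrivial]
  refine ⟨(W.induce {w : Fin 19 | w ≠ 0}).connectedComponentMk ⟨1, by decide⟩,
    (W.induce {w : Fin 19 | w ≠ 0}).connectedComponentMk ⟨10, by decide⟩, ?_⟩
  intro h
  have hr := SimpleGraph.ConnectedComponent.exact h
  obtain ⟨p⟩ := hr
  have key : ∀ (a b : {w : Fin 19 | w ≠ 0}) (_ : (W.induce {w : Fin 19 | w ≠ 0}).Walk a b),
      ((a : Fin 19) : ℕ) ≤ 9 ↔ ((b : Fin 19) : ℕ) ≤ 9 := by
    intro a b p
    induction p with
    | nil => rfl
    | @cons u v _ hadj _ ih => exact (side u v u.2 v.2 hadj).trans ih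
  have := (key _ _ p).mp (by decide)
  exact absurd this (by decide)

/-- **Main theorem.** There is a hypo-unique-domination graph with a cut-vertex. -/
theorem result : ∃ (n : ℕ) (G : SimpleGraph (Fin n)), HypoUD G ∧ ∃ v, IsCutVertex G v :=
  ⟨19, W, hypo, 0, cut⟩

end Pool.Agent.Results.MP_4402ee_co.CutVertex
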